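import Mathlib
import Pool.Agent.helper35.Hz.Sdefs

/-! MP_1b0330_gt, module C1: braid relations between the elementary twists. -/

namespace Pool.Agent.helper35.Hz

set_option linter.unusedSimpArgs false
set_option linter.unusedSectionVars false

section basics
variable {g i j l : ℕ}

theorem c1_A_a (hl : l < g) : tauA g i (ga g l) = ga g l := by
  rw [tauA, tw_ga hl]; simp [bA]

theorem c1_A_b (hl : l < g) (h : l ≠ i) : tauA g i (gb g l) = gb g l := by
  rw [tauA, tw_gb hl]; simp [bA, h]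

theorem c1_A_bi (hi : i < g) : tauA g i (gb g i) = gb g i * (ga g i)⁻¹ := by
  rw [tauA, tw_gb hi]; simp [bA]

theorem c1_B_b (hl : l < g) : tauB g i (gb g l) = gb g l := by
  rw [tauB, tw_gb hl]; simp [bB]

theorem c1_B_a (hl : l < g) (h : l ≠ i) : tauB g i (ga g l) = ga g l := by
  rw [tauB, tw_ga hl]; simp [bB, h]

theorem c1_B_ai (hi : i < g) : tauB g i (ga g i) = ga g i * gb g i := by
  rw [tauB, tw_ga hi]; simp [bB]

variable (h : i < j) (hj : j < g)
include h hj

theorem c1_M_a (hl : l < g) (h1 : l ≤ i ∨ j < l) : tauM g i j (ga g l) = ga g l := by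
  rw [tauM, dif_pos ⟨h, hj⟩, tw_ga hl, if_neg, if_neg]
  · simp
  · simp only [βM, decide_eq_true_eq]; omega
  · simp only [αM, decide_eq_true_eq]; simp; omega

theorem c1_M_am (h1 : i < l) (h2 : l ≤ j) :
    tauM g i j (ga g l) = mu g i j * ga g l * (mu g i j)⁻¹ := by
  rw [tauM, dif_pos ⟨h, hj⟩, tw_ga (by omega), if_pos, if_pos]
  · simp only [βM, decide_eq_true_eq]; omega
  · simp only [αM, decide_eq_true_eq]; simp; omega

theorem c1_M_bi : tauM g i j (gb g i) = mu g i j * gb g i := by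
  rw [tauM, dif_pos ⟨h, hj⟩, tw_gb (by omega), if_pos, if_neg]
  · simp
  · simp only [βM, decide_eq_true_eq]; omega
  · simp only [αM, decide_eq_true_eq]; simp

theorem c1_M_bj : tauM g i j (gb g j) = gb g j * (mu g i j)⁻¹ := by
  rw [tauM, dif_pos ⟨h, hj⟩, tw_gb (by omega), if_neg, if_pos]
  · simp
  · simp only [βM, decide_eq_true_eq]; omega
  · simp only [αM, decide_eq_true_eq]; simp; omega

theorem c1_M_bm (h1 : i < l) (h2 : l < j) :
    tauM g i j (gb g l) = mu g i j * gb g l * (mu g i j)⁻¹ := by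
  rw [tauM, dif_pos ⟨h, hj⟩, tw_gb (by omega), if_pos, if_pos]
  · simp only [βM, decide_eq_true_eq]; omega
  · simp only [αM, decide_eq_true_eq]; omega

theorem c1_M_b (hl : l < g) (h1 : l < i ∨ j < l) : tauM g i j (gb g l) = gb g l := by
  rw [tauM, dif_pos ⟨h, hj⟩, tw_gb hl, if_neg, if_neg]
  · simp
  · simp only [βM, decide_eq_true_eq]; omega
  · simp only [αM, decide_eq_true_eq]; omega

theorem c1_M_mu : tauM g i j (mu g i j) = mu g i j := by
  rw [tauM, dif_pos ⟨h, hj⟩, tw_apply]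
  exact tauM_aux ⟨h, hj⟩ _ (Or.inl rfl)

theorem c1_N_a (hl : l < g) (h1 : l < i ∨ j < l) : tauN g i j (ga g l) = ga g l := by
  rw [tauN, dif_pos ⟨h, hj⟩, tw_ga hl, if_neg, if_neg]
  · simp
  · simp only [βN, decide_eq_true_eq]; omega
  · simp only [αN, decide_eq_true_eq]; simp; omega

theorem c1_N_am (h1 : i < l) (h2 : l < j) :
    tauN g i j (ga g l) = nu g i j * ga g l * (nu g i j)⁻¹ := by
  rw [tauN, dif_pos ⟨h, hj⟩, tw_ga (by omega), if_pos, if_pos]
  · simp only [βN, decide_eq_true_eq]; omega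
  · simp only [αN, decide_eq_true_eq]; omega

theorem c1_N_ai : tauN g i j (ga g i) = ga g i * (nu g i j)⁻¹ := by
  rw [tauN, dif_pos ⟨h, hj⟩, tw_ga (by omega), if_neg, if_pos]
  · simp
  · simp only [βN, decide_eq_true_eq]; omega
  · simp only [αN, decide_eq_true_eq]; simp; omega

theorem c1_N_aj : tauN g i j (ga g j) = nu g i j * ga g j := by
  rw [tauN, dif_pos ⟨h, hj⟩, tw_ga (by omega), if_pos, if_neg]
  · simp
  · simp only [βN, decide_eq_true_eq]; omega
  · simp only [αN, decide_eq_true_eq]; simp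

theorem c1_N_bi : tauN g i j (gb g i) = nu g i j * gb g i * (nu g i j)⁻¹ := by
  rw [tauN, dif_pos ⟨h, hj⟩, tw_gb (by omega), if_pos, if_pos]
  · simp only [βN, decide_eq_true_eq]; omega
  · simp only [αN, decide_eq_true_eq]; simp

theorem c1_N_bm (h1 : i < l) (h2 : l < j) :
    tauN g i j (gb g l) = nu g i j * gb g l * (nu g i j)⁻¹ := by
  rw [tauN, dif_pos ⟨h, hj⟩, tw_gb (by omega), if_pos, if_pos]
  · simp only [βN, decide_eq_true_eq]; omega
  · simp only [αN, decide_eq_true_eq]; omega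

theorem c1_N_b (hl : l < g) (h1 : l < i ∨ j ≤ l) : tauN g i j (gb g l) = gb g l := by
  rw [tauN, dif_pos ⟨h, hj⟩, tw_gb hl, if_neg, if_neg]
  · simp
  · simp only [βN, decide_eq_true_eq]; omega
  · simp only [αN, decide_eq_true_eq]; simp; omega

theorem c1_N_nu : tauN g i j (nu g i j) = nu g i j := by
  rw [tauN, dif_pos ⟨h, hj⟩, tw_apply]
  exact tauN_aux ⟨h, hj⟩ _ (Or.inl rfl)

/-! ### the twists on the curves -/

theorem c1_A_zr {m : ℕ} (hm : m ≤ i ∨ j < m) : tauA g m (zr g (i + 1) j) = zr g (i + 1) j := by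
  change (tauA g m).toMonoidHom _ = _
  refine hom_zr_fix fun l h1 h2 => gz_fix ?_ ?_
  · exact c1_A_a (by omega)
  · exact c1_A_b (by omega) (by omega)

theorem c1_A_zr' : tauA g j (zr g (i + 1) j) = zr g (i + 1) j := by
  change (tauA g j).toMonoidHom _ = _
  refine hom_zr_fix fun l h1 h2 => gz_fix ?_ ?_
  · exact c1_A_a (by omega)
  · exact c1_A_b (by omega) (by omega)

theorem c1_B_zr {m : ℕ} (hm : m ≤ i ∨ j ≤ m) : tauB g m (zr g (i + 1) j) = zr g (i + 1) j := by
  change (tauB g m).toMonoidHom _ = _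
  refine hom_zr_fix fun l h1 h2 => gz_fix ?_ ?_
  · exact c1_B_a (by omega) (by omega)
  · exact c1_B_b (by omega)

theorem c1_Bi_mu : tauB g i (mu g i j) = (gb g i)⁻¹ * mu g i j := by
  simp only [mu, map_mul, map_inv, c1_B_zr h hj (Or.inl le_rfl), c1_B_b (show i < g by omega),
    c1_B_ai (show i < g by omega), c1_B_a hj (show j ≠ i by omega)]
  simp [mul_assoc]

theorem c1_Bj_mu : tauB g j (mu g i j) = mu g i j * gb g j := by
  simp only [mu, map_mul, map_inv, c1_B_zr h hj (Or.inr le_rfl), c1_B_b (show i < g by omega),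
    c1_B_ai hj, c1_B_a (show i < g by omega) (show i ≠ j by omega)]
  simp [mul_assoc]

theorem c1_Ai_nu : tauA g i (nu g i j) = ga g i * nu g i j := by
  simp only [nu, map_mul, map_inv, c1_A_zr h hj (Or.inl le_rfl), c1_A_bi (show i < g by omega),
    c1_A_a hj, c1_A_b hj (show j ≠ i by omega)]
  simp [mul_assoc]

theorem c1_Aj_nu : tauA g j (nu g i j) = nu g i j * (ga g j)⁻¹ := by
  simp only [nu, map_mul, map_inv, c1_A_zr' h hj, c1_A_bi hj,
    c1_A_a hj, c1_A_b (show i < g by omega) (show i ≠ j by omega)]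
  simp [mul_assoc]

end basics

theorem braid_A_B {g i : ℕ} (hi : i < g) : Braid (tauA g i) (tauB g i) := by
  unfold Braid
  refine fg_aut_ext (fun l hl => ?_) (fun l hl => ?_)
  · rcases eq_or_ne l i with rfl | e
    · simp [c1_A_a hl, c1_A_bi hl, c1_B_ai hl, c1_B_b hl, mul_assoc]
    · simp [c1_A_a hl, c1_B_a hl e]
  · rcases eq_or_ne l i with rfl | e
    · simp [c1_A_a hl, c1_A_bi hl, c1_B_ai hl, c1_B_b hl, mul_assoc]
    · simp [c1_A_b hl e, c1_B_b hl]

theorem braid_B_M1 {g i j : ℕ} (h : i < j) (hj : j < g) : Braid (tauB g i) (tauM g i j) := by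
  have hi : i < g := by omega
  unfold Braid
  refine fg_aut_ext (fun l hl => ?_) (fun l hl => ?_)
  · rcases lt_trichotomy l i with e | e | e
    · simp [c1_M_a h hj hl (Or.inl e.le), c1_B_a hl e.ne]
    · subst e
      simp [c1_M_a h hj hl (Or.inl le_rfl), c1_B_ai hl, c1_M_bi h hj, c1_Bi_mu h hj, c1_B_b hl, mul_assoc]
    · by_cases e2 : l ≤ j
      · simp [c1_M_am h hj e e2, c1_B_a hl e.ne', c1_M_bi h hj, c1_Bi_mu h hj, c1_B_b hi, c1_M_mu h hj,
          mul_assoc]
      · simp [c1_M_a h hj hl (Or.inr (by omega)), c1_B_a hl e.ne']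
  · rcases lt_trichotomy l i with e | e | e
    · simp [c1_M_b h hj hl (Or.inl e), c1_B_b hl]
    · subst e
      simp [c1_M_bi h hj, c1_Bi_mu h hj, c1_B_b hl, c1_M_mu h hj, mul_assoc]
    · rcases lt_trichotomy l j with e2 | e2 | e2
      · simp [c1_M_bm h hj e e2, c1_B_b hl, c1_M_bi h hj, c1_Bi_mu h hj, c1_B_b hi, c1_M_mu h hj,
          mul_assoc]
      · subst e2
        simp [c1_M_bj h hj, c1_B_b hl, c1_M_bi h hj, c1_Bi_mu h hj, c1_B_b hi, c1_M_mu h hj,
          mul_assoc]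
      · simp [c1_M_b h hj hl (Or.inr e2), c1_B_b hl]

theorem braid_B_M2 {g i j : ℕ} (h : i < j) (hj : j < g) : Braid (tauB g j) (tauM g i j) := by
  have hi : i < g := by omega
  unfold Braid
  refine fg_aut_ext (fun l hl => ?_) (fun l hl => ?_)
  · rcases lt_trichotomy l j with e | e | e
    · by_cases e2 : l ≤ i
      · simp [c1_M_a h hj hl (Or.inl e2), c1_B_a hl e.ne]
      · simp [c1_M_am h hj (not_le.mp e2) e.le, c1_B_a hl e.ne, c1_M_bj h hj, c1_Bj_mu h hj, c1_B_b hj,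
          c1_M_mu h hj, mul_assoc]
    · subst e
      simp [c1_M_am h hj h le_rfl, c1_B_ai hl, c1_M_bj h hj, c1_Bj_mu h hj, c1_B_b hl, c1_M_mu h hj,
        mul_assoc]
    · simp [c1_M_a h hj hl (Or.inr e), c1_B_a hl e.ne']
  · rcases lt_trichotomy l i with e | e | e
    · simp [c1_M_b h hj hl (Or.inl e), c1_B_b hl]
    · subst e
      simp [c1_M_bi h hj, c1_Bj_mu h hj, c1_B_b hl, c1_B_b hj, c1_M_mu h hj, c1_M_bj h hj, mul_assoc]
    · rcases lt_trichotomy l j with e2 | e2 | e2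
      · simp [c1_M_bm h hj e e2, c1_B_b hl, c1_M_bj h hj, c1_Bj_mu h hj, c1_B_b hj, c1_M_mu h hj,
          mul_assoc]
      · subst e2
        simp [c1_M_bj h hj, c1_B_b hl, c1_Bj_mu h hj, c1_M_mu h hj, mul_assoc]
      · simp [c1_M_b h hj hl (Or.inr e2), c1_B_b hl]

theorem braid_A_N1 {g i j : ℕ} (h : i < j) (hj : j < g) : Braid (tauA g i) (tauN g i j) := by
  have hi : i < g := by omega
  unfold Braid
  refine fg_aut_ext (fun l hl => ?_) (fun l hl => ?_)
  · rcases lt_trichotomy l i with e | e | e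
    · simp [c1_N_a h hj hl (Or.inl e), c1_A_a hl]
    · subst e
      simp [c1_N_ai h hj, c1_A_a hl, c1_Ai_nu h hj, c1_N_nu h hj, mul_assoc]
    · rcases lt_trichotomy l j with e2 | e2 | e2
      · simp [c1_N_am h hj e e2, c1_A_a hl, c1_N_ai h hj, c1_Ai_nu h hj, c1_A_a hi, c1_N_nu h hj,
          mul_assoc]
      · subst e2
        simp [c1_N_aj h hj, c1_A_a hl, c1_N_ai h hj, c1_Ai_nu h hj, c1_A_a hi, c1_N_nu h hj,
          mul_assoc]
      · simp [c1_N_a h hj hl (Or.inr e2), c1_A_a hl]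
  · rcases lt_trichotomy l i with e | e | e
    · simp [c1_N_b h hj hl (Or.inl e), c1_A_b hl e.ne]
    · subst e
      simp [c1_N_bi h hj, c1_A_bi hl, c1_N_ai h hj, c1_Ai_nu h hj, c1_A_a hl, c1_N_nu h hj, mul_assoc]
    · by_cases e2 : l < j
      · simp [c1_N_bm h hj e e2, c1_A_b hl e.ne', c1_N_ai h hj, c1_Ai_nu h hj, c1_A_a hi, c1_N_nu h hj,
          mul_assoc]
      · simp [c1_N_b h hj hl (Or.inr (not_lt.mp e2)), c1_A_b hl e.ne']

theorem braid_A_N2 {g i j : ℕ} (h : i < j) (hj : j < g) : Braid (tauA g j) (tauN g i j) := by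
  have hi : i < g := by omega
  unfold Braid
  refine fg_aut_ext (fun l hl => ?_) (fun l hl => ?_)
  · rcases lt_trichotomy l i with e | e | e
    · simp [c1_N_a h hj hl (Or.inl e), c1_A_a hl]
    · subst e
      simp [c1_N_ai h hj, c1_A_a hl, c1_A_a hj, c1_N_aj h hj, c1_Aj_nu h hj, c1_N_nu h hj, mul_assoc]
    · rcases lt_trichotomy l j with e2 | e2 | e2
      · simp [c1_N_am h hj e e2, c1_A_a hl, c1_N_aj h hj, c1_Aj_nu h hj, c1_A_a hj, c1_N_nu h hj,
          mul_assoc]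
      · subst e2
        simp [c1_N_aj h hj, c1_A_a hl, c1_Aj_nu h hj, c1_N_nu h hj, mul_assoc]
      · simp [c1_N_a h hj hl (Or.inr e2), c1_A_a hl]
  · rcases lt_trichotomy l i with e | e | e
    · simp [c1_N_b h hj hl (Or.inl e), c1_A_b hl (show l ≠ j by omega)]
    · subst e
      simp [c1_N_bi h hj, c1_A_b hl h.ne, c1_N_aj h hj, c1_Aj_nu h hj, c1_A_a hj, c1_N_nu h hj, mul_assoc]
    · rcases lt_trichotomy l j with e2 | e2 | e2
      · simp [c1_N_bm h hj e e2, c1_A_b hl e2.ne, c1_N_aj h hj, c1_Aj_nu h hj, c1_A_a hj, c1_N_nu h hj,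
          mul_assoc]
      · subst e2
        simp [c1_N_b h hj hj (Or.inr le_rfl), c1_A_bi hj, c1_N_aj h hj, c1_A_a hj, c1_Aj_nu h hj,
          mul_assoc]
      · simp [c1_N_b h hj hl (Or.inr e2.le), c1_A_b hl e2.ne']

end Pool.Agent.helper35.Hz
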